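import Pool.Agent.H91.TC.Basic

/-! Closing lemma with a torus symmetry: the choice of the translation (row NT). -/

namespace Pool.Agent.H75.TSC

open Pool.Agent.H88.CL Pool.Agent.H88.CM Pool.Agent.H91.TC

/-- Splitting a power of a sum with a small loss on the first term. -/
theorem pow_split (k : ℕ) {x y : ℝ} (hx : 0 ≤ x) (hy : 0 ≤ y) :
    (y + x) ^ k ≤ (5 / 4 * y) ^ k + (5 * x) ^ k := by
  rcases le_total x (y / 4) with h | h
  · have h1 : (y + x) ^ k ≤ (5 / 4 * y) ^ k := pow_le_pow_left₀ (by positivity) (by linarith) k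
    have h2 : 0 ≤ (5 * x) ^ k := by positivity
    linarith
  · have h1 : (y + x) ^ k ≤ (5 * x) ^ k := pow_le_pow_left₀ (by positivity) (by linarith) k
    have h2 : 0 ≤ (5 / 4 * y) ^ k := by positivity
    linarith

/-- Splitting a power of a sum. -/
theorem pow_split2 (k : ℕ) {x y : ℝ} (hx : 0 ≤ x) (hy : 0 ≤ y) :
    (y + x) ^ k ≤ (2 * y) ^ k + (2 * x) ^ k := by
  rcases le_total x y with h | h
  · have h1 : (y + x) ^ k ≤ (2 * y) ^ k := pow_le_pow_left₀ (by positivity) (by linarith) k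
    have h2 : 0 ≤ (2 * x) ^ k := by positivity
    linarith
  · have h1 : (y + x) ^ k ≤ (2 * x) ^ k := pow_le_pow_left₀ (by positivity) (by linarith) k
    have h2 : 0 ≤ (2 * y) ^ k := by positivity
    linarith

/-- The number of bad values of one coordinate. -/
theorem coord_bad (hA : T_NTA) {m l A : ℕ} {R e1 : ℝ} (hm : 1 ≤ m) (hR : 0 ≤ R) (he1 : 0 < e1)
    (hAe : e1 * m / 2 ≤ A) (c : ℝ) (z0 : ℤ) (Z : Finset ℤ)
    (hZ : ∀ z ∈ Z, z0 ≤ z ∧ z < z0 + A ∧ ∃ t : ℤ, |c + l * z / m - t| ≤ R) :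
    (Z.card : ℝ) ≤ A * ((Nat.gcd l m : ℝ) / m + ((2 + 4 / e1) * R + 2 / (e1 * m))) := by
  have hg : 0 < Nat.gcd l m := Nat.gcd_pos_of_pos_right l hm
  have hdiv : m = m / Nat.gcd l m * Nat.gcd l m := (Nat.div_mul_cancel (Nat.gcd_dvd_right l m)).symm
  have h1 := hA m l A (m / Nat.gcd l m) c R z0 hm hR hdiv Z hZ
  set b : ℕ := m / Nat.gcd l m with hb
  have hb0 : 0 < b := Nat.div_pos (Nat.le_of_dvd hm (Nat.gcd_dvd_right l m)) hg
  have hbR : (0 : ℝ) < b := by exact_mod_cast hb0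
  have hmR : (0 : ℝ) < m := by exact_mod_cast hm
  have hbm : (b : ℝ) ≤ m := by exact_mod_cast Nat.div_le_self m _
  have hm2 : (m : ℝ) = b * (Nat.gcd l m : ℝ) := by exact_mod_cast hdiv
  have hgm : (Nat.gcd l m : ℝ) / m = 1 / b := by
    have hgR : (0 : ℝ) < (Nat.gcd l m : ℝ) := by exact_mod_cast hg
    rw [hm2]
    field_simp
  rw [hgm]
  refine h1.trans ?_
  have e : ((A : ℝ) / b + 1) * (2 * R * b + 1) = A * (1 / b) + A * (2 * R) + 2 * R * b + 1 := by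
    field_simp
    ring
  rw [e]
  have hem : 0 < e1 * m := by positivity
  have h2 : 2 * R * b ≤ A * (4 / e1 * R) := by
    have h3 : 2 * R * b ≤ 2 * R * m := mul_le_mul_of_nonneg_left hbm (by positivity)
    have h4 : e1 * m / 2 * (4 / e1 * R) ≤ A * (4 / e1 * R) :=
      mul_le_mul_of_nonneg_right hAe (by positivity)
    have h5 : e1 * m / 2 * (4 / e1 * R) = 2 * R * m := by
      field_simp
      ring
    linarith
  have h6 : 1 ≤ A * (2 / (e1 * m)) := by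
    have h4 : e1 * m / 2 * (2 / (e1 * m)) ≤ A * (2 / (e1 * m)) :=
      mul_le_mul_of_nonneg_right hAe (by positivity)
    have h5 : e1 * m / 2 * (2 / (e1 * m)) = 1 := by
      field_simp
    linarith
  linarith [mul_add (A : ℝ) (1 / (b : ℝ)) ((2 + 4 / e1) * R + 2 / (e1 * m)),
    mul_add (A : ℝ) ((2 + 4 / e1) * R) (2 / (e1 * m)), add_mul (2 : ℝ) (4 / e1) R,
    mul_add (A : ℝ) (2 * R) (4 / e1 * R),
    congrArg (fun t => (A : ℝ) * t) (add_mul (2 : ℝ) (4 / e1) R)]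

/-- The bound for a power of the proportion of the bad values. -/
theorem pow_bound (k : ℕ) {g R e1 mm : ℝ} (hg : 0 ≤ g) (hR : 0 ≤ R) (he1 : 0 < e1) (hm : 0 < mm) :
    (g / mm + ((2 + 4 / e1) * R + 2 / (e1 * mm))) ^ k ≤
      (5 / 4 * g / mm) ^ k + ((10 * (2 + 4 / e1)) ^ k * R ^ k + (20 / (e1 * mm)) ^ k) := by
  have h1 := pow_split k (x := (2 + 4 / e1) * R + 2 / (e1 * mm)) (y := g / mm) (by positivity)
    (by positivity)
  have h2 := pow_split2 k (x := 5 * (2 / (e1 * mm))) (y := 5 * ((2 + 4 / e1) * R)) (by positivity)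
    (by positivity)
  have e1' : (5 / 4 * g / mm) = 5 / 4 * (g / mm) := by ring
  have e2 : 5 * ((2 + 4 / e1) * R + 2 / (e1 * mm)) =
      5 * ((2 + 4 / e1) * R) + 5 * (2 / (e1 * mm)) := by ring
  have e3 : 2 * (5 * ((2 + 4 / e1) * R)) = 10 * (2 + 4 / e1) * R := by ring
  have e4 : 2 * (5 * (2 / (e1 * mm))) = 20 / (e1 * mm) := by ring
  rw [e2] at h1
  rw [e3, e4, mul_pow] at h2
  rw [e1']
  linarith

/-- The choice of the threshold. -/
theorem exists_m0 {e1 : ℝ} (he1 : 0 < e1) : ∃ m0 : ℕ, ∀ m : ℕ, m0 ≤ m → 1 ≤ m ∧ 4 ≤ e1 * m ∧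
    ∀ k : ℕ, 3 ≤ k → (m : ℝ) * (20 / (e1 * m)) ^ k ≤ 1 / 500 := by
  obtain ⟨n1, hn1⟩ := exists_nat_ge (4 / e1)
  obtain ⟨n2, hn2⟩ := exists_nat_ge (20 / e1)
  obtain ⟨n3, hn3⟩ := exists_nat_ge (500 * (20 / e1) ^ 3)
  refine ⟨n1 + n2 + n3 + 1, fun m hm => ?_⟩
  have hm1 : 1 ≤ m := by omega
  have hmR : (1 : ℝ) ≤ m := by exact_mod_cast hm1
  have hm0 : (0 : ℝ) < m := by linarith
  have ha : (n1 : ℝ) ≤ m := by exact_mod_cast (by omega : n1 ≤ m)
  have hb : (n2 : ℝ) ≤ m := by exact_mod_cast (by omega : n2 ≤ m)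
  have hc : (n3 : ℝ) ≤ m := by exact_mod_cast (by omega : n3 ≤ m)
  refine ⟨hm1, ?_, fun k hk => ?_⟩
  · have h1 : 4 / e1 ≤ m := hn1.trans ha
    rw [div_le_iff₀ he1] at h1
    linarith
  · have h1 : 20 / (e1 * m) ≤ 1 := by
      rw [div_le_one (by positivity)]
      have h2 : 20 / e1 ≤ m := hn2.trans hb
      rw [div_le_iff₀ he1] at h2
      linarith
    have h3 : (20 / (e1 * m)) ^ k ≤ (20 / (e1 * m)) ^ 3 :=
      pow_le_pow_of_le_one (by positivity) h1 hk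
    have h4 : (m : ℝ) * (20 / (e1 * m)) ^ 3 = (20 / e1) ^ 3 / m ^ 2 := by
      field_simp
    have h5 : (20 / e1) ^ 3 / (m : ℝ) ^ 2 ≤ 1 / 500 := by
      rw [div_le_div_iff₀ (by positivity) (by norm_num)]
      have h6 : 500 * (20 / e1) ^ 3 ≤ m := hn3.trans hc
      nlinarith
    calc (m : ℝ) * (20 / (e1 * m)) ^ k ≤ (m : ℝ) * (20 / (e1 * m)) ^ 3 :=
          mul_le_mul_of_nonneg_left h3 hm0.le
      _ ≤ 1 / 500 := by rw [h4]; exact h5

open Classical in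
/-- The bad values of one coordinate in the box. -/
noncomputable def bad (m l A : ℕ) (R c : ℝ) (z0 : ℤ) : Finset ℤ :=
  (Finset.Ico z0 (z0 + A)).filter fun z => ∃ t : ℤ, |c + l * z / m - t| ≤ R

theorem mem_bad {m l A : ℕ} {R c : ℝ} {z0 z : ℤ} : z ∈ bad m l A R c z0 ↔
    (z0 ≤ z ∧ z < z0 + A) ∧ ∃ t : ℤ, |c + l * z / m - t| ≤ R := by
  classical
  rw [bad, Finset.mem_filter, Finset.mem_Ico]

/-- The counting argument: a good point of the box. -/
theorem exists_good (hA : T_NTA) (hB : T_NTB) {k m A : ℕ} (hk : 3 ≤ k) {R e1 : ℝ}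
    (hm : 1 ≤ m) (hR : 0 ≤ R) (he1 : 0 < e1) (hA0 : 1 ≤ A) (hAe : e1 * m / 2 ≤ A)
    (L : Finset ℕ) (hL : ∀ l ∈ L, 0 < l ∧ l < m)
    (hcR : (L.card : ℝ) * R ^ k ≤ 1 / 500 / (10 * (2 + 4 / e1)) ^ k)
    (hmk : (m : ℝ) * (20 / (e1 * m)) ^ k ≤ 1 / 500) (c : ℕ → Fin k → ℝ) (z0 : Fin k → ℤ) :
    ∃ z : Fin k → ℤ, (∀ i, z0 i ≤ z i ∧ z i < z0 i + A) ∧
      ∀ l ∈ L, ∃ i, z i ∉ bad m l A R (c l i) (z0 i) := by
  classical
  have hmR : (0 : ℝ) < m := by exact_mod_cast hm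
  have hAR : (0 : ℝ) < A := by exact_mod_cast hA0
  have hLm : (L.card : ℝ) ≤ m := by
    have h1 : L ⊆ Finset.range m := fun l hl => Finset.mem_range.2 (hL l hl).2
    have h2 := Finset.card_le_card h1
    rw [Finset.card_range] at h2
    exact_mod_cast h2
  have hterm : ∀ l ∈ L, ((Fintype.piFinset fun i => bad m l A R (c l i) (z0 i)).card : ℝ) ≤
      (A : ℝ) ^ k * ((5 / 4 * (Nat.gcd l m : ℝ) / m) ^ k +
        ((10 * (2 + 4 / e1)) ^ k * R ^ k + (20 / (e1 * m)) ^ k)) := by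
    intro l _
    rw [Fintype.card_piFinset]
    push_cast
    have h1 : ∀ i ∈ (Finset.univ : Finset (Fin k)), ((bad m l A R (c l i) (z0 i)).card : ℝ) ≤
        A * ((Nat.gcd l m : ℝ) / m + ((2 + 4 / e1) * R + 2 / (e1 * m))) := by
      intro i _
      refine coord_bad hA hm hR he1 hAe (c l i) (z0 i) _ (fun z hz => ?_)
      rw [mem_bad] at hz
      exact ⟨hz.1.1, hz.1.2, hz.2⟩
    refine (Finset.prod_le_prod (fun i _ => Nat.cast_nonneg _) h1).trans ?_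
    rw [Finset.prod_const, Finset.card_univ, Fintype.card_fin, mul_pow]
    exact mul_le_mul_of_nonneg_left
      (pow_bound k (Nat.cast_nonneg _) hR he1 hmR) (by positivity)
  have hsum : ((L.biUnion fun l => Fintype.piFinset fun i => bad m l A R (c l i) (z0 i)).card : ℝ)
      < (A : ℝ) ^ k := by
    have h1 : ((L.biUnion fun l => Fintype.piFinset fun i => bad m l A R (c l i) (z0 i)).card : ℝ)
        ≤ ∑ l ∈ L, ((Fintype.piFinset fun i => bad m l A R (c l i) (z0 i)).card : ℝ) := by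
      exact_mod_cast Finset.card_biUnion_le
    refine (h1.trans (Finset.sum_le_sum hterm)).trans_lt ?_
    rw [← Finset.mul_sum, Finset.sum_add_distrib, Finset.sum_const, nsmul_eq_mul]
    have h2 : ∑ l ∈ L, (5 / 4 * (Nat.gcd l m : ℝ) / m) ^ k ≤ 125 / 128 := by
      refine le_trans (Finset.sum_le_sum_of_subset_of_nonneg (fun l hl => ?_)
        (fun l _ _ => by positivity)) (hB m k hm hk)
      exact Finset.mem_Ioo.2 (hL l hl)
    have h3 : (L.card : ℝ) * ((10 * (2 + 4 / e1)) ^ k * R ^ k) ≤ 1 / 500 := by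
      have h4 : 0 < (10 * (2 + 4 / e1)) ^ k := by positivity
      rw [le_div_iff₀ h4] at hcR
      linarith
    have h5 : (L.card : ℝ) * (20 / (e1 * m)) ^ k ≤ 1 / 500 :=
      (mul_le_mul_of_nonneg_right hLm (by positivity)).trans hmk
    have h6 : (∑ l ∈ L, (5 / 4 * (Nat.gcd l m : ℝ) / m) ^ k +
        (L.card : ℝ) * ((10 * (2 + 4 / e1)) ^ k * R ^ k + (20 / (e1 * m)) ^ k)) < 1 := by
      rw [mul_add]
      linarith
    have h7 : (0 : ℝ) < (A : ℝ) ^ k := by positivity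
    calc (A : ℝ) ^ k * (∑ l ∈ L, (5 / 4 * (Nat.gcd l m : ℝ) / m) ^ k +
        (L.card : ℝ) * ((10 * (2 + 4 / e1)) ^ k * R ^ k + (20 / (e1 * m)) ^ k))
        < (A : ℝ) ^ k * 1 := mul_lt_mul_of_pos_left h6 h7
      _ = (A : ℝ) ^ k := mul_one _
  have hbox : (Fintype.piFinset fun i => Finset.Ico (z0 i) (z0 i + (A : ℤ))).card = A ^ k := by
    rw [Fintype.card_piFinset]
    have h1 : ∀ i ∈ (Finset.univ : Finset (Fin k)),
        (Finset.Ico (z0 i) (z0 i + (A : ℤ))).card = A := by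
      intro i _
      rw [Int.card_Ico]
      omega
    rw [Finset.prod_congr rfl h1, Finset.prod_const, Finset.card_univ, Fintype.card_fin]
  have hlt : (L.biUnion fun l => Fintype.piFinset fun i => bad m l A R (c l i) (z0 i)).card <
      (Fintype.piFinset fun i => Finset.Ico (z0 i) (z0 i + (A : ℤ))).card := by
    rw [hbox]
    exact_mod_cast hsum
  obtain ⟨z, hz, hz2⟩ := Finset.exists_mem_notMem_of_card_lt_card hlt
  rw [Fintype.mem_piFinset] at hz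
  refine ⟨z, fun i => Finset.mem_Ico.1 (hz i), fun l hl => ?_⟩
  by_contra hcon
  push Not at hcon
  exact hz2 (Finset.mem_biUnion.2 ⟨l, hl, Fintype.mem_piFinset.2 hcon⟩)

theorem pf_NT (hA : T_NTA) (hB : T_NTB) : T_NT := by
  intro k hk η hη
  have hk0 : (0 : ℝ) < k := by exact_mod_cast (by omega : 0 < k)
  set e1 : ℝ := η / √k with he
  have he1 : 0 < e1 := by positivity
  obtain ⟨m0, hm0⟩ := exists_m0 he1
  refine ⟨1 / 500 / (10 * (2 + 4 / e1)) ^ k, m0, by positivity, ?_⟩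
  intro m hm R L hR hL hcR S
  obtain ⟨hm1, hm4, hmk⟩ := hm0 m hm
  have hmR : (0 : ℝ) < m := by exact_mod_cast hm1
  have hfl : 4 ≤ ⌊e1 * m⌋₊ := Nat.le_floor (by exact_mod_cast hm4)
  set A : ℕ := ⌊e1 * m⌋₊ - 1 with hAdef
  have hA1 : (A : ℝ) + 1 = (⌊e1 * m⌋₊ : ℝ) := by
    rw [hAdef]
    have : ((⌊e1 * m⌋₊ - 1 : ℕ) : ℝ) = (⌊e1 * m⌋₊ : ℝ) - 1 := by
      rw [Nat.cast_sub (by omega)]
      simp
    rw [this]
    ring
  have hAle : (A : ℝ) + 1 ≤ e1 * m := by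
    rw [hA1]
    exact Nat.floor_le (by positivity)
  have hAge : e1 * m / 2 ≤ A := by
    have h1 := Nat.lt_floor_add_one (e1 * m)
    rw [← hA1] at h1
    linarith
  have hA0 : 1 ≤ A := by omega
  obtain ⟨z, hz, hgood⟩ := exists_good hA hB hk hm1 hR he1 hA0 hAge L hL hcR (hmk k hk)
    (fun l i => l * (-(S m) i) / m + (S l) i) (fun i => ⌈(S m) i⌉)
  refine ⟨WithLp.toLp 2 (fun i => ((z i : ℝ) - (S m) i) / m), ?_, ?_, ?_⟩
  · have h1 : ∀ i ∈ (Finset.univ : Finset (Fin k)),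
        ‖(WithLp.toLp 2 (fun i => ((z i : ℝ) - (S m) i) / m) : E k) i‖ ^ 2 ≤ e1 ^ 2 := by
      intro i _
      change ‖((z i : ℝ) - (S m) i) / m‖ ^ 2 ≤ e1 ^ 2
      have h2 : (⌈(S m) i⌉ : ℝ) ≤ z i := by exact_mod_cast (hz i).1
      have h3 : (z i : ℝ) < ⌈(S m) i⌉ + A := by exact_mod_cast (hz i).2
      have h4 := Int.le_ceil ((S m) i)
      have h5 := Int.ceil_lt_add_one ((S m) i)
      rw [Real.norm_eq_abs, abs_of_nonneg (div_nonneg (by linarith) hmR.le)]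
      refine pow_le_pow_left₀ (div_nonneg (by linarith) hmR.le) ?_ 2
      rw [div_le_iff₀ hmR]
      linarith
    rw [EuclideanSpace.norm_eq]
    refine Real.sqrt_le_iff.2 ⟨hη.le, ?_⟩
    refine (Finset.sum_le_sum h1).trans ?_
    rw [Finset.sum_const, Finset.card_univ, Fintype.card_fin, nsmul_eq_mul, he, div_pow,
      Real.sq_sqrt hk0.le]
    rw [mul_div_cancel₀ _ hk0.ne']
  · intro i
    refine ⟨z i, ?_⟩
    change (m : ℝ) * (((z i : ℝ) - (S m) i) / m) + (S m) i = z i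
    rw [mul_div_cancel₀ _ hmR.ne']
    ring
  · intro l hl t ht
    by_contra hcon
    push Not at hcon
    obtain ⟨i, hi⟩ := hgood l hl
    refine hi ?_
    obtain ⟨ti, hti⟩ := ht i
    rw [mem_bad]
    refine ⟨⟨(hz i).1, (hz i).2⟩, ti, ?_⟩
    have h1 := (PiLp.norm_apply_le ((l : ℝ) • (WithLp.toLp 2
      (fun i => ((z i : ℝ) - (S m) i) / m) : E k) + S l - t) i).trans hcon
    have h2 : ((l : ℝ) • (WithLp.toLp 2 (fun i => ((z i : ℝ) - (S m) i) / m) : E k) + S l - t) i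
        = l * (-(S m) i) / m + (S l) i + l * z i / m - ti := by
      change (l : ℝ) * (((z i : ℝ) - (S m) i) / m) + (S l) i - t i = _
      rw [hti]
      ring
    rw [h2, Real.norm_eq_abs] at h1
    exact h1

end Pool.Agent.H75.TSC
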