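import Pool.Agent.H91.TC.Basic

/-! Closing lemma with a torus symmetry: the pigeonhole principle in `ℝ^d` (row PIG). -/

namespace Pool.Agent.H75.TSC

open Pool.Agent.H88.CL Pool.Agent.H88.CM Pool.Agent.H91.TC

/-- Two vectors whose scaled coordinates have the same integer parts are close. -/
theorem close_of_floor {d : ℕ} {s : ℝ} (hs : 0 < s) (x y c : E d)
    (h : ∀ i, ⌊(x - c) i * (√d / s)⌋ = ⌊(y - c) i * (√d / s)⌋) : ‖x - y‖ ≤ s := by
  have h1 : ∀ i, ‖(x - y) i‖ ^ 2 * d ≤ s ^ 2 := by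
    intro i
    have h2 := Int.abs_sub_lt_one_of_floor_eq_floor (h i)
    have h3 : (x - c) i * (√d / s) - (y - c) i * (√d / s) = (x - y) i * (√d / s) := by
      simp only [PiLp.sub_apply]
      ring
    rw [h3, abs_mul, abs_of_nonneg (by positivity : (0 : ℝ) ≤ √d / s)] at h2
    have h4 : |(x - y) i| * √d ≤ s := by
      have h5 : |(x - y) i| * (√d / s) = |(x - y) i| * √d / s := by ring
      rw [h5, div_lt_one hs] at h2
      exact h2.le
    have h6 : (|(x - y) i| * √d) ^ 2 ≤ s ^ 2 :=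
      pow_le_pow_left₀ (by positivity) h4 2
    rw [mul_pow, Real.sq_sqrt (Nat.cast_nonneg d)] at h6
    rw [Real.norm_eq_abs]
    exact h6
  rw [EuclideanSpace.norm_eq]
  refine Real.sqrt_le_iff.2 ⟨hs.le, ?_⟩
  rcases Nat.eq_zero_or_pos d with hd | hd
  · subst hd
    simp only [Finset.univ_eq_empty, Finset.sum_empty]
    positivity
  · have hd' : (0 : ℝ) < d := by exact_mod_cast hd
    have h2 : ∀ i ∈ (Finset.univ : Finset (Fin d)), ‖(x - y) i‖ ^ 2 ≤ s ^ 2 / d := by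
      intro i _
      rw [le_div_iff₀ hd']
      exact h1 i
    refine (Finset.sum_le_sum h2).trans ?_
    rw [Finset.sum_const, Finset.card_univ, Fintype.card_fin, nsmul_eq_mul]
    rw [mul_div_cancel₀ _ hd'.ne']

theorem pf_PIG : T_PIG := by
  intro d
  refine ⟨2 * √d + 2, by linarith [Real.sqrt_nonneg (d : ℝ)], ?_⟩
  intro L p c R s hs hsR hL hcard
  have hR : 0 < R := hs.trans_le hsR
  set b : ℝ := R * (√d / s) with hb
  have hb0 : 0 ≤ b := by positivity
  have hmaps : ∀ l ∈ L, (fun i => ⌊(p l - c) i * (√d / s)⌋) ∈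
      Fintype.piFinset (fun _ : Fin d => Finset.Icc ⌊-b⌋ ⌊b⌋) := by
    intro l hl
    rw [Fintype.mem_piFinset]
    intro i
    have h1 : |(p l - c) i| ≤ R := (PiLp.norm_apply_le (p l - c) i).trans (hL l hl)
    have h2 := abs_le.1 h1
    have h3 : (0 : ℝ) ≤ √d / s := by positivity
    rw [Finset.mem_Icc]
    constructor
    · refine Int.floor_le_floor ?_
      rw [hb, ← neg_mul]
      exact mul_le_mul_of_nonneg_right h2.1 h3
    · refine Int.floor_le_floor ?_
      exact mul_le_mul_of_nonneg_right h2.2 h3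
  have hone : ((Finset.Icc ⌊-b⌋ ⌊b⌋).card : ℝ) ≤ (2 * √d + 2) * R / s := by
    rw [Int.card_Icc]
    have h1 : ⌊-b⌋ ≤ ⌊b⌋ := Int.floor_le_floor (by linarith)
    have h2 : (((⌊b⌋ + 1 - ⌊-b⌋).toNat : ℕ) : ℝ) = (⌊b⌋ : ℝ) + 1 - ⌊-b⌋ := by
      have h3 : (((⌊b⌋ + 1 - ⌊-b⌋).toNat : ℕ) : ℤ) = ⌊b⌋ + 1 - ⌊-b⌋ :=
        Int.toNat_of_nonneg (by linarith)
      exact_mod_cast h3
    rw [h2]
    have h4 := Int.floor_le b
    have h5 := Int.lt_floor_add_one (-b)
    have h6 : 1 ≤ R / s := (one_le_div hs).2 hsR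
    have h7 : (2 * √d + 2) * R / s = 2 * b + 2 * (R / s) := by
      rw [hb]
      ring
    rw [h7]
    linarith
  have hcard2 : (Fintype.piFinset (fun _ : Fin d => Finset.Icc ⌊-b⌋ ⌊b⌋)).card < L.card := by
    rw [Fintype.card_piFinset_const]
    have h1 : (((Finset.Icc ⌊-b⌋ ⌊b⌋).card ^ d : ℕ) : ℝ) ≤ ((2 * √d + 2) * R / s) ^ d := by
      push_cast
      exact pow_le_pow_left₀ (Nat.cast_nonneg _) hone d
    exact_mod_cast h1.trans_lt hcard
  obtain ⟨l, hl, l', hl', hne, heq⟩ :=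
    Finset.exists_ne_map_eq_of_card_lt_of_maps_to hcard2 hmaps
  have key : ‖p l - p l'‖ ≤ s := close_of_floor hs (p l) (p l') c (fun i => congrFun heq i)
  rcases lt_or_gt_of_ne hne with h | h
  · exact ⟨l, hl, l', hl', h, key⟩
  · exact ⟨l', hl', l, hl, h, by rw [norm_sub_rev]; exact key⟩

end Pool.Agent.H75.TSC
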